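import Pool.Agent.Helper13.REC.Quo

/-!
# Packet REC-H_HER: the Herbrand quotient

The Prop `H_HER` of project REC (MP_fc6b1e_nt), proved from `H_IDX`.
-/

set_option autoImplicit false

namespace Pool.Agent.Helper13.REC

open Module Pool.Agent.Helper51.REC

variable {M : Type} [CommGroup M] (σ : M ≃* M) (p : ℕ)

theorem nm_apply (x : M) : nmG p σ x = ∏ i ∈ Finset.range p, (σ ^ i : MulAut M) x := by
  rw [nmG, MonoidHom.finsetProd_apply]
  rfl

theorem df_apply (x : M) : dfG σ x = x / σ x := rfl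

theorem mem_fix (x : M) : x ∈ fixG σ ↔ σ x = x := Iff.rfl

theorem nm_of_fix {x : M} (hx : σ x = x) : nmG p σ x = x ^ p := by
  rw [nm_apply]
  have h : ∀ i : ℕ, (σ ^ i : MulAut M) x = x := by
    intro i
    induction i with
    | zero => rfl
    | succ i ih =>
      rw [pow_succ, MulAut.mul_apply]
      show (σ ^ i : MulAut M) (σ x) = x
      rw [hx, ih]
  rw [Finset.prod_congr rfl (fun i _ => h i), Finset.prod_const, Finset.card_range]

theorem nm_sigma (hσ : ∀ x, (σ ^ p : MulAut M) x = x) (x : M) : nmG p σ (σ x) = nmG p σ x := by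
  rw [nm_apply, nm_apply]
  have h1 : ∀ i : ℕ, (σ ^ i : MulAut M) (σ x) = (σ ^ (i + 1) : MulAut M) x := by
    intro i
    rw [pow_succ, MulAut.mul_apply]
  rw [Finset.prod_congr rfl (fun i _ => h1 i)]
  have h2 := Finset.prod_range_succ' (fun i => (σ ^ i : MulAut M) x) p
  rw [Finset.prod_range_succ, hσ x] at h2
  simp only [pow_zero, MulAut.one_apply] at h2
  exact (mul_right_cancel h2).symm

/-- The restriction of `σ` to the kernel of the norm. -/
noncomputable def sB (hσ : ∀ x, (σ ^ p : MulAut M) x = x) : (nmG p σ).ker →* (nmG p σ).ker where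
  toFun x := ⟨σ x, by
    rw [MonoidHom.mem_ker, nm_sigma σ p hσ]
    exact x.2⟩
  map_one' := Subtype.ext (map_one σ)
  map_mul' x y := Subtype.ext (map_mul σ (x : M) (y : M))

/-- The same as an endomorphism of the additive group. -/
noncomputable def sA (hσ : ∀ x, (σ ^ p : MulAut M) x = x) : AddMonoid.End (Additive (nmG p σ).ker) :=
  MonoidHom.toAdditive (sB σ p hσ)

theorem sB_pow (hσ : ∀ x, (σ ^ p : MulAut M) x = x) (i : ℕ) (x : (nmG p σ).ker) :
    ((T ((sA σ p hσ) ^ i) x : (nmG p σ).ker) : M) = (σ ^ i : MulAut M) x := by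
  induction i generalizing x with
  | zero => rfl
  | succ i ih =>
    rw [pow_succ, T_mul, MonoidHom.comp_apply, ih, pow_succ, MulAut.mul_apply]
    rfl

theorem sB_sum (hσ : ∀ x, (σ ^ p : MulAut M) x = x) (n : ℕ) (x : (nmG p σ).ker) :
    ((T (∑ i ∈ Finset.range n, (sA σ p hσ) ^ i) x : (nmG p σ).ker) : M) = ∏ i ∈ Finset.range n, (σ ^ i : MulAut M) x := by
  induction n with
  | zero => rfl
  | succ n ih =>
    rw [Finset.sum_range_succ, Finset.prod_range_succ, ← ih, ← sB_pow σ p hσ]
    rfl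

theorem sigma_nm (hσ : ∀ x, (σ ^ p : MulAut M) x = x) (x : M) : σ (nmG p σ x) = nmG p σ x := by
  have h0 : σ (nmG p σ x) = nmG p σ (σ x) := by
    rw [nm_apply, nm_apply, map_prod]
    refine Finset.prod_congr rfl (fun i _ => ?_)
    have : (σ * σ ^ i : MulAut M) x = (σ ^ i * σ : MulAut M) x := by
      rw [← pow_succ, ← pow_succ']
    exact this
  rw [h0, nm_sigma σ p hσ]

theorem h_her (h1 : H_IDX) : Pool.Agent.Helper51.REC.H_HER := by
  intro p hp M _ _ σ hσ n hn hM
  have hp0 := hp.out.pos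
  have hfin : Module.Finite ℤ (Additive M) := by
    rw [Module.Finite.iff_addGroup_fg]
    infer_instance
  have hNF : (nmG p σ).range ≤ fixG σ := by
    rintro _ ⟨x, rfl⟩
    exact sigma_nm σ p hσ x
  have hDB : (dfG σ).range ≤ (nmG p σ).ker := by
    rintro _ ⟨x, rfl⟩
    rw [MonoidHom.mem_ker, df_apply, map_div, nm_sigma σ p hσ, div_self']
  have hDk : (dfG σ).ker = fixG σ := by
    ext x
    rw [MonoidHom.mem_ker, df_apply, mem_fix, div_eq_one]
    exact eq_comm
  have := fin_sub (fixG σ)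
  have := fin_sub (nmG p σ).ker
  -- the rank of the kernel of the norm
  have hrk : finrank ℤ (Additive (nmG p σ).ker) = (p - 1) * (n + 1) := by
    have r1 := rank_add (nmG p σ)
    have r2 := rank_eq (nmG p σ).range (fixG σ) hNF hp.out.ne_zero
      (fun x hx => ⟨x, nm_of_fix σ p hx⟩)
    rw [r2, hn, hM] at r1
    obtain ⟨q, rfl⟩ : ∃ q, p = q + 1 := ⟨p - 1, by omega⟩
    simp only [Nat.add_sub_cancel] at r1 ⊢
    nlinarith
  -- the power map on the fixed elements
  obtain ⟨a1, a2⟩ := pow_index (fixG σ) hp.out.ne_zero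
  have e1 : ((fixG σ).map (nmG p σ)).relIndex (fixG σ) =
      (powMonoidHom p : fixG σ →* fixG σ).range.index := by
    show (((fixG σ).map (nmG p σ)).subgroupOf (fixG σ)).index = _
    congr 1
    ext x
    rw [Subgroup.mem_subgroupOf]
    constructor
    · rintro ⟨y, hy, hyx⟩
      rw [nm_of_fix σ p hy] at hyx
      exact ⟨⟨y, hy⟩, Subtype.ext hyx⟩
    · rintro ⟨y, hy⟩
      refine ⟨(y : M), y.2, ?_⟩
      rw [nm_of_fix σ p y.2]
      exact congrArg Subtype.val hy
  have hle1 : (fixG σ).map (nmG p σ) ≤ (nmG p σ).range := by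
    rintro _ ⟨y, _, rfl⟩
    exact ⟨y, rfl⟩
  have e2 : ((fixG σ).map (nmG p σ)).relIndex (nmG p σ).range =
      (fixG σ ⊔ (nmG p σ).ker).index := by
    rw [MonoidHom.range_eq_map, Subgroup.relIndex_map_map, top_sup_eq, Subgroup.relIndex_top_right]
  have e3 := Subgroup.relIndex_mul_relIndex _ _ _ hle1 hNF
  rw [e1, e2, a1, hn] at e3
  -- the map `1 - σ` on the kernel of the norm
  have hsum : ∑ i ∈ Finset.range p, (sA σ p hσ) ^ i = 0 := by
    ext x
    have h2 := sB_sum σ p hσ p x
    rw [← nm_apply] at h2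
    exact h2.trans x.2
  obtain ⟨b1, b2, b3⟩ := quo h1 (sA σ p hσ) hsum (n + 1) hrk
  have hT : ∀ x : (nmG p σ).ker, ((T (1 - (sA σ p hσ)) x : (nmG p σ).ker) : M) = dfG σ x := fun x => rfl
  have f1 : ((nmG p σ).ker.map (dfG σ)).relIndex (nmG p σ).ker =
      (T (1 - (sA σ p hσ))).range.index := by
    show (((nmG p σ).ker.map (dfG σ)).subgroupOf (nmG p σ).ker).index = _
    congr 1
    ext x
    rw [Subgroup.mem_subgroupOf]
    constructor
    · rintro ⟨y, hy, hyx⟩
      exact ⟨⟨y, hy⟩, Subtype.ext hyx⟩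
    · rintro ⟨y, hy⟩
      exact ⟨(y : M), y.2, congrArg Subtype.val hy⟩
  have hle2 : (nmG p σ).ker.map (dfG σ) ≤ (dfG σ).range := by
    rintro _ ⟨y, _, rfl⟩
    exact ⟨y, rfl⟩
  have f2 : ((nmG p σ).ker.map (dfG σ)).relIndex (dfG σ).range =
      (fixG σ ⊔ (nmG p σ).ker).index := by
    rw [MonoidHom.range_eq_map, Subgroup.relIndex_map_map, top_sup_eq,
      Subgroup.relIndex_top_right, hDk, sup_comm]
  have f3 := Subgroup.relIndex_mul_relIndex _ _ _ hle2 hDB
  rw [f1, f2, b3] at f3
  -- the two kernels have the same number of elements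
  have hcard : Nat.card (T (1 - (sA σ p hσ))).ker =
      Nat.card (powMonoidHom p : fixG σ →* fixG σ).ker := by
    apply Nat.card_congr
    exact
      { toFun := fun x => ⟨⟨((x : (nmG p σ).ker) : M), by
          have h2 := congrArg Subtype.val x.2
          rw [hT] at h2
          have h3 : ((x : (nmG p σ).ker) : M) ∈ (dfG σ).ker := h2
          rw [hDk] at h3
          exact h3⟩, by
          have h2 := congrArg Subtype.val x.2
          rw [hT] at h2
          have h3 : ((x : (nmG p σ).ker) : M) ∈ (dfG σ).ker := h2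
          rw [hDk] at h3
          have h4 := nm_of_fix σ p h3
          rw [x.1.2] at h4
          exact Subtype.ext h4.symm⟩
        invFun := fun x => ⟨⟨((x : fixG σ) : M), by
          rw [MonoidHom.mem_ker, nm_of_fix σ p x.1.2]
          exact congrArg Subtype.val x.2⟩, by
          have h3 : ((x : fixG σ) : M) ∈ (dfG σ).ker := by
            rw [hDk]
            exact x.1.2
          exact Subtype.ext h3⟩
        left_inv := fun x => rfl
        right_inv := fun x => rfl }
  rw [hcard] at f3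
  have hc0 : 0 < Nat.card (powMonoidHom p : fixG σ →* fixG σ).ker := Nat.card_pos
  have hpn : 0 < p ^ n * Nat.card (powMonoidHom p : fixG σ →* fixG σ).ker := by positivity
  have hm0 : 0 < (fixG σ ⊔ (nmG p σ).ker).index := by
    rw [← e3] at hpn
    exact Nat.pos_of_mul_pos_right hpn
  refine ⟨?_, ?_⟩
  · intro h0
    rw [h0, mul_zero] at e3
    omega
  · apply Nat.eq_of_mul_eq_mul_left hm0
    rw [f3, pow_succ]
    calc p ^ n * p * Nat.card (powMonoidHom p : fixG σ →* fixG σ).ker
        = p * (p ^ n * Nat.card (powMonoidHom p : fixG σ →* fixG σ).ker) := by ring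
      _ = _ := by
        rw [← e3]
        ring

end Pool.Agent.Helper13.REC
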