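import Mathlib

/-!
# Auxiliary results for the packet REC-H_HER: index of the subgroup of `p`-th powers
-/

set_option autoImplicit false

namespace Pool.Agent.Helper13.REC

open Module

theorem quot_torsion (A : Type) [AddCommGroup A] [Module.Finite ℤ A] (p : ℕ) :
    (nsmulAddMonoidHom (α := A ⧸ Submodule.torsion ℤ A) p).range.index = p ^ finrank ℤ A := by
  have h1 : finrank ℤ (A ⧸ Submodule.torsion ℤ A) = finrank ℤ A :=
    finrank_quotient_eq_of_le_torsion le_rfl
  have hfree : Module.Free ℤ (A ⧸ Submodule.torsion ℤ A) := by infer_instance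
  have h2 := AddSubgroup.index_range_nsmul (A ⧸ Submodule.torsion ℤ A) p
  rw [h2, h1]

theorem mem_tors (A : Type) [AddCommGroup A] {p : ℕ} (hp : p ≠ 0) (x : A) (hx : p • x = 0) :
    x ∈ Submodule.torsion ℤ A := by
  rw [Submodule.mem_torsion_iff]
  refine ⟨⟨(p : ℤ), mem_nonZeroDivisors_of_ne_zero (by exact_mod_cast hp)⟩, ?_⟩
  show (p : ℤ) • x = 0
  rw [natCast_zsmul]
  exact hx

theorem div_tors (A : Type) [AddCommGroup A] {p : ℕ} (hp : p ≠ 0) (x : A)
    (hx : p • x ∈ Submodule.torsion ℤ A) : x ∈ Submodule.torsion ℤ A := by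
  rw [Submodule.mem_torsion_iff] at hx ⊢
  obtain ⟨a, ha⟩ := hx
  refine ⟨⟨(a : ℤ) * p, mul_mem a.2 (mem_nonZeroDivisors_of_ne_zero (by exact_mod_cast hp))⟩, ?_⟩
  show ((a : ℤ) * p) • x = 0
  rw [mul_smul, natCast_zsmul]
  exact ha

theorem sup_index (A : Type) [AddCommGroup A] [Module.Finite ℤ A] (p : ℕ) :
    ((nsmulAddMonoidHom (α := A) p).range ⊔ (Submodule.torsion ℤ A).toAddSubgroup).index =
      p ^ finrank ℤ A := by
  have h1 := AddSubgroup.index_map (H := (nsmulAddMonoidHom (α := A) p).range)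
    (f := (Submodule.torsion ℤ A).mkQ.toAddMonoidHom)
  have h2 : (Submodule.torsion ℤ A).mkQ.toAddMonoidHom.ker =
      (Submodule.torsion ℤ A).toAddSubgroup := by
    ext x
    rw [AddMonoidHom.mem_ker]
    exact Submodule.Quotient.mk_eq_zero _
  have h3 : (Submodule.torsion ℤ A).mkQ.toAddMonoidHom.range = ⊤ := by
    rw [AddMonoidHom.range_eq_top]
    exact (Submodule.torsion ℤ A).mkQ_surjective
  have h4 : (nsmulAddMonoidHom (α := A) p).range.map
      (Submodule.torsion ℤ A).mkQ.toAddMonoidHom =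
      (nsmulAddMonoidHom (α := A ⧸ Submodule.torsion ℤ A) p).range := by
    ext x
    constructor
    · rintro ⟨y, ⟨z, rfl⟩, rfl⟩
      exact ⟨(Submodule.torsion ℤ A).mkQ z, (map_nsmul (Submodule.torsion ℤ A).mkQ p z).symm⟩
    · rintro ⟨y, rfl⟩
      obtain ⟨z, rfl⟩ := (Submodule.torsion ℤ A).mkQ_surjective y
      exact ⟨p • z, ⟨z, rfl⟩, map_nsmul (Submodule.torsion ℤ A).mkQ p z⟩
  rw [h2, h3, h4, AddSubgroup.index_top, mul_one, quot_torsion] at h1
  exact h1.symm

theorem rel_index (A : Type) [AddCommGroup A] [Module.Finite ℤ A] {p : ℕ} (hp : p ≠ 0) :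
    (nsmulAddMonoidHom (α := A) p).range.relIndex (Submodule.torsion ℤ A).toAddSubgroup =
      Nat.card (nsmulAddMonoidHom (α := A) p).ker ∧
      Finite (nsmulAddMonoidHom (α := A) p).ker := by
  have hfinT : Finite (Submodule.torsion ℤ A) :=
    Module.finite_of_fg_torsion _ (Submodule.torsion_isTorsion)
  have h1 : (nsmulAddMonoidHom (α := A) p).range.addSubgroupOf
      (Submodule.torsion ℤ A).toAddSubgroup =
      (nsmulAddMonoidHom (α := (Submodule.torsion ℤ A).toAddSubgroup) p).range := by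
    ext x
    constructor
    · rintro ⟨y, hy⟩
      have hy' : p • y = (x : A) := hy
      have hyT : y ∈ Submodule.torsion ℤ A := div_tors A hp y (by rw [hy']; exact x.2)
      exact ⟨⟨y, hyT⟩, Subtype.ext hy'⟩
    · rintro ⟨y, rfl⟩
      exact ⟨(y : A), rfl⟩
  have hfin2 : Finite (Submodule.torsion ℤ A).toAddSubgroup := hfinT
  have h2 : (nsmulAddMonoidHom (α := A) p).range.relIndex
      (Submodule.torsion ℤ A).toAddSubgroup =
      Nat.card (nsmulAddMonoidHom (α := (Submodule.torsion ℤ A).toAddSubgroup) p).ker := by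
    show ((nsmulAddMonoidHom (α := A) p).range.addSubgroupOf
      (Submodule.torsion ℤ A).toAddSubgroup).index = _
    rw [h1]
    exact AddSubgroup.index_range
  let E : (nsmulAddMonoidHom (α := (Submodule.torsion ℤ A).toAddSubgroup) p).ker ≃
      (nsmulAddMonoidHom (α := A) p).ker :=
    { toFun := fun x => ⟨((x : (Submodule.torsion ℤ A).toAddSubgroup) : A), by
        have := x.2
        rw [AddMonoidHom.mem_ker] at this ⊢
        exact congrArg Subtype.val this⟩
      invFun := fun x => ⟨⟨(x : A), mem_tors A hp _ x.2⟩, by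
        rw [AddMonoidHom.mem_ker]
        exact Subtype.ext x.2⟩
      left_inv := fun x => rfl
      right_inv := fun x => rfl }
  exact ⟨h2.trans (Nat.card_congr E), Finite.of_equiv _ E⟩

/-- The index of `p A` in a finitely generated abelian group `A`. -/
theorem nsmul_index (A : Type) [AddCommGroup A] [Module.Finite ℤ A] {p : ℕ} (hp : p ≠ 0) :
    (nsmulAddMonoidHom (α := A) p).range.index =
      p ^ finrank ℤ A * Nat.card (nsmulAddMonoidHom (α := A) p).ker ∧
      Finite (nsmulAddMonoidHom (α := A) p).ker := by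
  have e1 := AddSubgroup.relIndex_mul_index
    (le_sup_left : (nsmulAddMonoidHom (α := A) p).range ≤
      (nsmulAddMonoidHom (α := A) p).range ⊔ (Submodule.torsion ℤ A).toAddSubgroup)
  have e2 := AddSubgroup.relIndex_sup_left (Submodule.torsion ℤ A).toAddSubgroup
    (nsmulAddMonoidHom (α := A) p).range
  have e3 := rel_index A hp
  refine ⟨?_, e3.2⟩
  rw [← e1, sup_index]
  rw [mul_comm]
  congr 1
  exact e2.trans e3.1

/-- The index of the subgroup of `p`-th powers. -/
theorem pow_index (A : Type) [CommGroup A] [Module.Finite ℤ (Additive A)] {p : ℕ} (hp : p ≠ 0) :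
    (powMonoidHom p : A →* A).range.index =
      p ^ finrank ℤ (Additive A) * Nat.card (powMonoidHom p : A →* A).ker ∧
      Finite (powMonoidHom p : A →* A).ker :=
  nsmul_index (Additive A) hp

end Pool.Agent.Helper13.REC
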