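import Mathlib

/-!
# Auxiliary results for the packet REC-H_HER: ranks of finitely generated abelian groups
-/

set_option autoImplicit false

namespace Pool.Agent.Helper13.REC

open Module

theorem fin_of_inj {A B : Type} [CommGroup A] [CommGroup B] [Module.Finite ℤ (Additive B)]
    (f : A →* B) (hf : Function.Injective f) : Module.Finite ℤ (Additive A) :=
  Module.Finite.of_injective (MonoidHom.toAdditive f).toIntLinearMap hf

theorem fin_sub {A : Type} [CommGroup A] [Module.Finite ℤ (Additive A)] (H : Subgroup A) :
    Module.Finite ℤ (Additive H) :=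
  fin_of_inj H.subtype H.subtype_injective

theorem rank_add {A B : Type} [CommGroup A] [CommGroup B] [Module.Finite ℤ (Additive A)]
    (f : A →* B) :
    finrank ℤ (Additive f.range) + finrank ℤ (Additive f.ker) = finrank ℤ (Additive A) := by
  have h1 := Submodule.finrank_quotient_add_finrank
    (LinearMap.ker (MonoidHom.toAdditive f).toIntLinearMap)
  have e0 := (MonoidHom.toAdditive f).toIntLinearMap.quotKerEquivRange
  let e1 : Additive f.ker ≃+ LinearMap.ker (MonoidHom.toAdditive f).toIntLinearMap :=
    { toFun := fun x => ⟨Additive.ofMul ((Additive.toMul x : f.ker) : A), by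
        have := (Additive.toMul x).2
        exact this⟩
      invFun := fun x => Additive.ofMul ⟨Additive.toMul (x : Additive A), x.2⟩
      left_inv := fun x => rfl
      right_inv := fun x => rfl
      map_add' := fun x y => rfl }
  let e2 : Additive f.range ≃+ LinearMap.range (MonoidHom.toAdditive f).toIntLinearMap :=
    { toFun := fun x => ⟨Additive.ofMul ((Additive.toMul x : f.range) : B), by
        have := (Additive.toMul x).2
        exact this⟩
      invFun := fun x => Additive.ofMul ⟨Additive.toMul (x : Additive B), x.2⟩
      left_inv := fun x => rfl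
      right_inv := fun x => rfl
      map_add' := fun x y => rfl }
  rw [e0.finrank_eq, ← e1.toIntLinearEquiv.finrank_eq, ← e2.toIntLinearEquiv.finrank_eq] at h1
  exact h1

theorem rank_le {A B : Type} [CommGroup A] [CommGroup B] [Module.Finite ℤ (Additive A)]
    [Module.Finite ℤ (Additive B)] (f : A →* B) {p : ℕ} (hp : p ≠ 0)
    (h : ∀ x, f x = 1 → x ^ p = 1) :
    finrank ℤ (Additive A) ≤ finrank ℤ (Additive B) := by
  have h1 := rank_add f
  have := fin_sub f.ker
  have h2 : finrank ℤ (Additive f.ker) = 0 := by
    rw [Module.finrank_eq_zero_iff_isTorsion]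
    intro x
    refine ⟨⟨(p : ℤ), mem_nonZeroDivisors_of_ne_zero (by exact_mod_cast hp)⟩, ?_⟩
    show (p : ℤ) • x = 0
    rw [natCast_zsmul]
    have h3 := h _ (Additive.toMul x).2
    exact Subtype.ext h3
  have h3 : finrank ℤ (Additive f.range) ≤ finrank ℤ (Additive B) :=
    LinearMap.finrank_le_finrank_of_injective
      (f := (MonoidHom.toAdditive f.range.subtype).toIntLinearMap) f.range.subtype_injective
  omega

theorem rank_eq {A : Type} [CommGroup A] [Module.Finite ℤ (Additive A)] (H K : Subgroup A)
    (hHK : H ≤ K) {p : ℕ} (hp : p ≠ 0) (h : ∀ x ∈ K, x ^ p ∈ H) :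
    finrank ℤ (Additive H) = finrank ℤ (Additive K) := by
  have := fin_sub H
  have := fin_sub K
  apply le_antisymm
  · apply rank_le (Subgroup.inclusion hHK) hp
    intro x hx
    have h2 : x = 1 := by
      apply Subgroup.inclusion_injective hHK
      rw [hx, map_one]
    rw [h2, one_pow]
  · let f : K →* H :=
      { toFun := fun x => ⟨(x : A) ^ p, h _ x.2⟩
        map_one' := Subtype.ext (one_pow p)
        map_mul' := fun x y => Subtype.ext (mul_pow (x : A) (y : A) p) }
    apply rank_le f hp
    intro x hx
    have h3 := congrArg Subtype.val hx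
    exact Subtype.ext h3

end Pool.Agent.Helper13.REC
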