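import Pool.Agent.Helper51.REC.Goals1
import Pool.Agent.Helper13.REC.Idx
import Pool.Agent.Helper13.REC.Rnk

/-!
# Packet REC-H_HER: the quotient `q(1 - σ)` on a module with `1 + σ + ... + σ^(p-1) = 0`
-/

set_option autoImplicit false

namespace Pool.Agent.Helper13.REC

open Module Polynomial Pool.Agent.Helper51.REC

/-- The polynomial `∏_{i < m} (1 - X^(i+1))`. -/
noncomputable def PP (m : ℕ) : ℤ[X] := ∏ i ∈ Finset.range m, (1 - X ^ (i + 1))

theorem PP_dvd (p : ℕ) [hp : Fact p.Prime] :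
    (∑ i ∈ Finset.range p, (X : ℤ[X]) ^ i) ∣ PP (p - 1) - (p : ℤ[X]) := by
  have hpos := hp.out.pos
  have hprim := Complex.isPrimitiveRoot_exp p hpos.ne'
  rw [← cyclotomic_prime ℤ p, cyclotomic_eq_minpoly hprim hpos]
  apply minpoly.isIntegrallyClosed_dvd (hprim.isIntegral hpos)
  have h1 : IsPrimitiveRoot (Complex.exp (2 * Real.pi * Complex.I / p)) (p - 1 + 1) := by
    rw [Nat.sub_add_cancel hpos]
    exact hprim
  have h2 := h1.prod_one_sub_pow_eq_order
  rw [map_sub, PP, map_prod]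
  simp only [map_sub, map_one, map_pow, aeval_X, map_natCast]
  rw [h2]
  have h3 : (((p - 1 : ℕ) : ℂ) + 1) = (p : ℂ) := by
    rw [← Nat.cast_succ, Nat.succ_eq_add_one, Nat.sub_add_cancel hpos]
  rw [h3, sub_self]

/-- The endomorphism of the multiplicative group. -/
def T {B : Type} [CommGroup B] (r : AddMonoid.End (Additive B)) : B →* B :=
  MonoidHom.toAdditive.symm r

theorem T_mul {B : Type} [CommGroup B] (r s : AddMonoid.End (Additive B)) :
    T (r * s) = (T r).comp (T s) := rfl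

/-- Finite kernel and cokernel. -/
def Good {B : Type} [CommGroup B] (r : AddMonoid.End (Additive B)) : Prop :=
  (T r).range.index ≠ 0 ∧ Finite (T r).ker

theorem range_le {B : Type} [CommGroup B] {r s u : AddMonoid.End (Additive B)} (h : r = s * u) :
    (T r).range ≤ (T s).range := by
  rintro x ⟨y, rfl⟩
  rw [h]
  exact ⟨T u y, rfl⟩

theorem ker_le {B : Type} [CommGroup B] {r s u : AddMonoid.End (Additive B)} (h : r = u * s) :
    (T s).ker ≤ (T r).ker := by
  intro x hx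
  rw [MonoidHom.mem_ker] at hx ⊢
  rw [h, T_mul, MonoidHom.comp_apply, hx, map_one]

theorem good_of_dvd {B : Type} [CommGroup B] {r s u : AddMonoid.End (Additive B)} (h : r = s * u)
    (h' : r = u * s) (hr : Good r) : Good s := by
  obtain ⟨h1, h2⟩ := hr
  refine ⟨?_, ?_⟩
  · intro h0
    apply h1
    have h3 := Subgroup.index_dvd_of_le (range_le h)
    rw [h0] at h3
    exact Nat.eq_zero_of_zero_dvd h3
  · exact Set.Finite.subset h2 (ker_le h')

/-- `1 - σ^k` and `1 - σ` have the same kernel and image. -/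
theorem same {B : Type} [CommGroup B] (σ : AddMonoid.End (Additive B)) {p : ℕ} [hp : Fact p.Prime]
    (hσ : σ ^ p = 1) {k : ℕ} (hk0 : 0 < k) (hkp : k < p) :
    (T (1 - σ ^ k)).range = (T (1 - σ)).range ∧ (T (1 - σ ^ k)).ker = (T (1 - σ)).ker := by
  have e1 : (1 - σ ^ k) = (1 - σ) * (∑ i ∈ Finset.range k, σ ^ i) :=
    (mul_neg_geom_sum σ k).symm
  have e2 : (1 - σ ^ k) = (∑ i ∈ Finset.range k, σ ^ i) * (1 - σ) :=
    (geom_sum_mul_neg σ k).symm
  obtain ⟨j, hj⟩ : ∃ j : ℕ, σ ^ (k * j) = σ := by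
    have hc : Nat.Coprime k p :=
      (Nat.coprime_of_lt_prime hk0.ne' hkp hp.out).symm
    obtain ⟨j, _, hj⟩ := Nat.exists_mul_mod_eq_one_of_coprime hc hp.out.one_lt
    refine ⟨j, ?_⟩
    rw [pow_eq_pow_mod (k * j) hσ, hj, pow_one]
  have e3 : (1 - σ) = (1 - σ ^ k) * (∑ i ∈ Finset.range j, (σ ^ k) ^ i) := by
    rw [mul_neg_geom_sum, ← pow_mul, hj]
  have e4 : (1 - σ) = (∑ i ∈ Finset.range j, (σ ^ k) ^ i) * (1 - σ ^ k) := by
    rw [geom_sum_mul_neg, ← pow_mul, hj]
  exact ⟨le_antisymm (range_le e1) (range_le e3), le_antisymm (ker_le e4) (ker_le e2)⟩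

theorem aeval_PP_succ {B : Type} [CommGroup B] (σ : AddMonoid.End (Additive B)) (m : ℕ) :
    aeval σ (PP (m + 1)) = aeval σ (PP m) * (1 - σ ^ (m + 1)) := by
  rw [PP, Finset.prod_range_succ, map_mul]
  congr 1
  simp

theorem ind (h1 : H_IDX) {B : Type} [CommGroup B] (σ : AddMonoid.End (Additive B)) {p : ℕ}
    [hp : Fact p.Prime] (hσ : σ ^ p = 1) (hg : Good (1 - σ)) :
    ∀ m, m < p → Good (aeval σ (PP m)) ∧
      (T (aeval σ (PP m))).range.index * Nat.card (T (1 - σ)).ker ^ m =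
        (T (1 - σ)).range.index ^ m * Nat.card (T (aeval σ (PP m))).ker := by
  intro m
  induction m with
  | zero =>
    intro _
    have h0 : aeval σ (PP 0) = 1 := by simp [PP]
    have hT : T (1 : AddMonoid.End (Additive B)) = MonoidHom.id B := rfl
    have hr : (MonoidHom.id B).range = ⊤ := MonoidHom.range_eq_top.2 (fun x => ⟨x, rfl⟩)
    have hk : (MonoidHom.id B).ker = ⊥ := by
      ext x
      rfl
    rw [h0, Good, hT, hr, hk]
    refine ⟨⟨by simp, inferInstance⟩, by simp⟩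
  | succ m ih =>
    intro hm
    obtain ⟨ih1, ih2⟩ := ih (by omega)
    obtain ⟨s1, s2⟩ := same σ hσ (k := m + 1) (Nat.succ_pos m) hm
    have hg' : Good (1 - σ ^ (m + 1)) := by
      rw [Good, s1, s2]
      exact hg
    obtain ⟨i1, i2, i3⟩ := h1 B (T (aeval σ (PP m))) (T (1 - σ ^ (m + 1))) ih1.1 hg'.1 ih1.2 hg'.2
    rw [← T_mul, ← aeval_PP_succ] at i1 i2 i3
    refine ⟨⟨i1, i2⟩, ?_⟩
    rw [s1, s2] at i3
    have hpos : 0 < Nat.card (T (aeval σ (PP m))).ker := by
      have := ih1.2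
      exact Nat.card_pos
    apply Nat.eq_of_mul_eq_mul_left hpos
    calc Nat.card (T (aeval σ (PP m))).ker * ((T (aeval σ (PP (m + 1)))).range.index *
          Nat.card (T (1 - σ)).ker ^ (m + 1))
        = ((T (aeval σ (PP (m + 1)))).range.index * (Nat.card (T (aeval σ (PP m))).ker *
          Nat.card (T (1 - σ)).ker)) * Nat.card (T (1 - σ)).ker ^ m := by ring
      _ = ((T (aeval σ (PP m))).range.index * Nat.card (T (1 - σ)).ker ^ m) *
          ((T (1 - σ)).range.index * Nat.card (T (aeval σ (PP (m + 1)))).ker) := by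
        rw [i3]
        ring
      _ = _ := by
        rw [ih2]
        ring

/-- `q(1 - σ) = p^r` if `1 + σ + ... + σ^(p-1) = 0` and the rank is `(p - 1) r`. -/
theorem quo (h1 : H_IDX) {B : Type} [CommGroup B] [Module.Finite ℤ (Additive B)]
    (σ : AddMonoid.End (Additive B)) {p : ℕ} [hp : Fact p.Prime]
    (hσ : ∑ i ∈ Finset.range p, σ ^ i = 0) (r : ℕ)
    (hr : finrank ℤ (Additive B) = (p - 1) * r) :
    (T (1 - σ)).range.index ≠ 0 ∧ Finite (T (1 - σ)).ker ∧
    (T (1 - σ)).range.index = p ^ r * Nat.card (T (1 - σ)).ker := by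
  have hp0 := hp.out.pos
  have hp2 := hp.out.two_le
  have hσp : σ ^ p = 1 := by
    have := geom_sum_mul_neg σ p
    rw [hσ, zero_mul] at this
    exact (sub_eq_zero.1 this.symm).symm
  obtain ⟨pidx, pfin⟩ := pow_index B hp.out.ne_zero
  have hTp : T ((p : ℕ) : AddMonoid.End (Additive B)) = (powMonoidHom p : B →* B) := by
    ext x
    rfl
  have hPp : aeval σ (PP (p - 1)) = ((p : ℕ) : AddMonoid.End (Additive B)) := by
    obtain ⟨Q, hQ⟩ := PP_dvd p
    have h2 := congrArg (aeval σ) hQ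
    rw [map_sub, map_mul, map_sum] at h2
    simp only [map_pow, aeval_X, map_natCast] at h2
    rw [hσ, zero_mul] at h2
    exact sub_eq_zero.1 h2
  have hgp : Good ((p : ℕ) : AddMonoid.End (Additive B)) := by
    rw [Good, hTp]
    refine ⟨?_, pfin⟩
    rw [pidx]
    have : 0 < Nat.card (powMonoidHom p : B →* B).ker := Nat.card_pos
    positivity
  have hdiv : ∃ u : ℤ[X], PP (p - 1) = (1 - X) * u := by
    obtain ⟨q, hq⟩ : ∃ q, p - 1 = q + 1 := ⟨p - 2, by omega⟩
    rw [hq, PP, Finset.prod_range_succ']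
    exact ⟨∏ k ∈ Finset.range q, (1 - X ^ (k + 1 + 1)), by ring⟩
  obtain ⟨u, hu⟩ := hdiv
  have hg : Good (1 - σ) := by
    apply good_of_dvd (r := ((p : ℕ) : AddMonoid.End (Additive B))) (u := aeval σ u)
    · rw [← hPp, hu, map_mul]
      simp
    · rw [← hPp, hu, mul_comm, map_mul]
      simp
    · exact hgp
  obtain ⟨_, k2⟩ := ind h1 σ hσp hg (p - 1) (by omega)
  refine ⟨hg.1, hg.2, ?_⟩
  rw [hPp, hTp, pidx, hr] at k2
  have hpos : 0 < Nat.card (powMonoidHom p : B →* B).ker := Nat.card_pos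
  have k3 : (p ^ r * Nat.card (T (1 - σ)).ker) ^ (p - 1) = (T (1 - σ)).range.index ^ (p - 1) := by
    apply Nat.eq_of_mul_eq_mul_right hpos
    rw [← k2, mul_pow, ← pow_mul, mul_comm r (p - 1)]
    ring
  exact (Nat.pow_left_injective (n := p - 1) (by omega) k3).symm

end Pool.Agent.Helper13.REC
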